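import Pool.Agent.V11201.GP.Core

set_option autoImplicit false

/-!
Reductions of small depth from parity to a problem with a gap must be large.
-/

namespace Pool.Agent.V11201.GP

open Finset Pool.Agent.Y601.SSE DomAC0 H568R2 Pool.Agent.TH163.AC3
open scoped Classical

/-- the position `p` is present at the input `x` -/
def Pres {N : ℕ} (C : Circuit (Fin N)) {P : Type} (out : P → Fin N ⊕ Fin C.size)
    (x : Fin N → Bool) (p : P) : Prop := C.nodeVal x (out p) = true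

theorem ac0_core {N : ℕ} (C : Circuit (Fin N)) {P : Type} [Fintype P]
    (out : P → Fin N ⊕ Fin C.size) (h : ℕ) (hh : ∀ p, C.nodeDepth (out p) ≤ h)
    (hne : ∀ x, ∃ p, Pres C out x p) {c : ℝ} (hc : 0 ≤ c)
    (hpair : ∀ i x, c * ((num (Pres C out x) : ℝ) + num (Pres C out (Y601.SSE.flip i x))) ≤
      (only (Pres C out x) (Pres C out (Y601.SSE.flip i x)) : ℝ) +
        only (Pres C out (Y601.SSE.flip i x)) (Pres C out x))
    {s : ℕ} (hs : 1 ≤ s) (hcond : h * C.size * (24 * s) ^ h ≤ 2 ^ s) :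
    c * N ≤ (24 * s) ^ (h + 1) := by
  have hs0 : (1 : ℝ) ≤ s := by exact_mod_cast hs
  rcases Nat.eq_zero_or_pos N with hN | hN
  · subst hN
    simp only [Nat.cast_zero, mul_zero]
    positivity
  obtain ⟨ρ, hρ, hst⟩ := exists_restr C (by simpa using hN) hs h hcond
  rw [Fintype.card_fin] at hst
  obtain ⟨J, hJ⟩ : ∃ J : Finset (Fin N), J = univ.filter fun i => ρ i = none := ⟨_, rfl⟩
  rw [← hJ] at hst
  have hcount := sens (fun x => Pres C out (ov ρ x)) (fun x => hne _) c s J ?_ ?_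
  · calc c * N ≤ c * (4 * (24 * s) ^ h * J.card) := mul_le_mul_of_nonneg_left hst hc
      _ = 4 * (24 * s) ^ h * (c * J.card) := by ring
      _ ≤ 4 * (24 * s) ^ h * s := mul_le_mul_of_nonneg_left hcount (by positivity)
      _ ≤ (24 * s) ^ (h + 1) := by
        rw [pow_succ]
        have : (0 : ℝ) ≤ (24 * s) ^ h := by positivity
        nlinarith
  · intro p x hp
    have h1 := node_dt C hs hρ (out p) (hh p)
    refine le_trans (card_le_card ?_) (sens_le h1 J x)
    intro i hi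
    rw [mem_filter] at hi ⊢
    refine ⟨hi.1, ?_⟩
    have h2 : rs (fun x => C.nodeVal x (out p)) ρ x = true := hp
    rw [h2]
    exact hi.2
  · intro i hi x
    rw [hJ, mem_filter] at hi
    have h3 := hpair i (ov ρ x)
    rw [← ov_flip ρ i hi.2] at h3
    exact h3

/-- reductions of small depth from parity to a problem with a gap must be large -/
theorem ac0_main (h : ℕ) : ∃ X0 : ℝ, ∀ {N : ℕ} (C : Circuit (Fin N)) {P : Type} [Fintype P]
    (out : P → Fin N ⊕ Fin C.size) (c : ℝ),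
    (∀ p, C.nodeDepth (out p) ≤ h) → (∀ x, ∃ p, Pres C out x p) → 0 ≤ c →
    (∀ i x, c * ((num (Pres C out x) : ℝ) + num (Pres C out (Y601.SSE.flip i x))) ≤
      (only (Pres C out x) (Pres C out (Y601.SSE.flip i x)) : ℝ) +
        only (Pres C out (Y601.SSE.flip i x)) (Pres C out x)) →
    X0 ≤ c * N → (2 : ℝ) ^ ((c * N) ^ (1 / (h + 1 : ℝ)) / 100) ≤ C.size := by
  obtain ⟨Y0, hY48, hY0⟩ := exists_large h
  refine ⟨Y0 ^ (h + 1), ?_⟩
  intro N C P _ out c hh hne hc hpair hX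
  obtain ⟨X, hXd⟩ : ∃ X : ℝ, X = c * N := ⟨_, rfl⟩
  rw [← hXd] at hX ⊢
  obtain ⟨Y, hYd⟩ : ∃ Y : ℝ, Y = X ^ (1 / (h + 1 : ℝ)) := ⟨_, rfl⟩
  rw [← hYd]
  have hY00 : (0 : ℝ) ≤ Y0 := by linarith
  have hXpos : 0 ≤ X := le_trans (by positivity) hX
  have hYX : Y ^ (h + 1) = X := by
    rw [hYd, ← Real.rpow_natCast, ← Real.rpow_mul hXpos]
    push_cast
    rw [one_div, inv_mul_cancel₀ (by positivity), Real.rpow_one]
  have hYn : 0 ≤ Y := by rw [hYd]; exact Real.rpow_nonneg hXpos _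
  have hYY : Y0 ≤ Y := by
    by_contra hcon
    push Not at hcon
    have := pow_lt_pow_left₀ hcon hYn (Nat.succ_ne_zero h)
    rw [Nat.succ_eq_add_one, hYX] at this
    linarith
  have hY := hY0 Y hYY
  by_contra hcon
  push Not at hcon
  -- the depth of the decision trees
  obtain ⟨s, hs⟩ : ∃ s : ℕ, s = ⌈Y / 24⌉₊ - 1 := ⟨_, rfl⟩
  have hc1 : Y / 24 ≤ ⌈Y / 24⌉₊ := Nat.le_ceil _
  have hc2 : (⌈Y / 24⌉₊ : ℝ) < Y / 24 + 1 := Nat.ceil_lt_add_one (by positivity)
  have hc3 : 2 ≤ ⌈Y / 24⌉₊ := by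
    have : (2 : ℝ) ≤ ⌈Y / 24⌉₊ := le_trans (by linarith) hc1
    exact_mod_cast this
  have hs1 : 1 ≤ s := by omega
  have hsr : (s : ℝ) = ⌈Y / 24⌉₊ - 1 := by
    rw [hs, Nat.cast_sub (by omega), Nat.cast_one]
  have hs2 : 24 * (s : ℝ) < Y := by rw [hsr]; linarith
  have hs3 : Y / 24 - 1 ≤ s := by rw [hsr]; linarith
  have hlt : (24 * (s : ℝ)) ^ (h + 1) < X := by
    rw [← hYX]
    exact pow_lt_pow_left₀ hs2 (by positivity) (Nat.succ_ne_zero h)
  have hcond : h * C.size * (24 * s) ^ h ≤ 2 ^ s := by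
    have h1 : ((h * C.size * (24 * s) ^ h : ℕ) : ℝ) ≤ ((2 ^ s : ℕ) : ℝ) := by
      push_cast
      calc (h : ℝ) * C.size * (24 * s) ^ h ≤ h * 2 ^ (Y / 100) * Y ^ h := by
            apply mul_le_mul _ (pow_le_pow_left₀ (by positivity) hs2.le h) (by positivity)
              (by positivity)
            exact mul_le_mul_of_nonneg_left hcon.le (Nat.cast_nonneg _)
        _ = h * Y ^ h * 2 ^ (Y / 100) := by ring
        _ ≤ 2 ^ (Y / 24 - 1) := hY
        _ ≤ (2 : ℝ) ^ (s : ℝ) := Real.rpow_le_rpow_of_exponent_le (by norm_num) hs3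
        _ = 2 ^ s := Real.rpow_natCast _ _
    exact_mod_cast h1
  have hcore := ac0_core C out h hh hne hc hpair hs1 hcond
  rw [← hXd] at hcore
  linarith

end Pool.Agent.V11201.GP
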