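import Pool.Agent.Y601.SSE.Ac0

set_option autoImplicit false

/-!
Instances given by presence bits: yes instances and no instances differ much; double counting for
bits of small sensitivity and for unate bits.
-/

namespace Pool.Agent.V11201.GP

open Finset Pool.Agent.Y601.SSE
open scoped Classical

section overlap

variable {P : Type} [Fintype P]

/-- the number of positions with the property `E` -/
noncomputable def num (E : P → Prop) : ℕ := (univ.filter fun p => E p).card

/-- the number of positions with the property `E` and without the property `F` -/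
noncomputable def only (E F : P → Prop) : ℕ := (univ.filter fun p => E p ∧ ¬ F p).card

theorem num_eq (E F : P → Prop) : num E = only E F + num fun p => E p ∧ F p := by
  unfold num only
  rw [← card_union_of_disjoint]
  · congr 1
    ext p
    simp only [mem_union, mem_filter, mem_univ, true_and]
    tauto
  · rw [disjoint_left]
    intro p hp hq
    simp only [mem_filter, mem_univ, true_and] at hp hq
    exact hp.2 hq.2

theorem num_and_comm (E F : P → Prop) : (num fun p => E p ∧ F p) = num fun p => F p ∧ E p := by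
  unfold num
  congr 1
  ext p
  simp only [mem_filter, mem_univ, true_and]
  tauto

/-- the relative distance between yes instances and no instances -/
noncomputable def gap (γ δ : ℝ) : ℝ := (1 - γ - δ) / (1 + |γ - δ|)

theorem gap_nonneg {γ δ : ℝ} (h : γ + δ ≤ 1) : 0 ≤ gap γ δ :=
  div_nonneg (by linarith) (by positivity)

/-- a yes instance and a no instance differ much -/
theorem differ {E F S : P → Prop} {γ δ : ℝ}
    (hyes : ((num fun p => E p ∧ ¬ S p : ℕ) : ℝ) ≤ γ * num E)
    (hno : ((num fun p => F p ∧ S p : ℕ) : ℝ) ≤ δ * num F) :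
    gap γ δ * ((num E : ℝ) + num F) ≤ (only E F : ℝ) + only F E := by
  have e1 : (num E : ℝ) = only E F + (num fun p => E p ∧ F p : ℕ) := by
    exact_mod_cast num_eq E F
  have e2 : (num F : ℝ) = only F E + (num fun p => E p ∧ F p : ℕ) := by
    rw [num_and_comm]
    exact_mod_cast num_eq F E
  have e3 : ((num fun p => E p ∧ F p : ℕ) : ℝ) ≤
      (num fun p => F p ∧ S p : ℕ) + (num fun p => E p ∧ ¬ S p : ℕ) := by
    have : (num fun p => E p ∧ F p) ≤ (num fun p => F p ∧ S p) + num fun p => E p ∧ ¬ S p := by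
      unfold num
      refine le_trans (card_le_card ?_) (card_union_le _ _)
      intro p hp
      simp only [mem_filter, mem_univ, true_and, mem_union] at hp ⊢
      tauto
    exact_mod_cast this
  obtain ⟨a, ha⟩ : ∃ a : ℝ, a = num E := ⟨_, rfl⟩
  obtain ⟨b, hb⟩ : ∃ b : ℝ, b = num F := ⟨_, rfl⟩
  obtain ⟨t, ht⟩ : ∃ t : ℝ, t = ((num fun p => E p ∧ F p : ℕ) : ℝ) := ⟨_, rfl⟩
  obtain ⟨u, hu⟩ : ∃ u : ℝ, u = only E F := ⟨_, rfl⟩
  obtain ⟨w, hw⟩ : ∃ w : ℝ, w = only F E := ⟨_, rfl⟩
  have hu0 : 0 ≤ u := by rw [hu]; positivity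
  have hw0 : 0 ≤ w := by rw [hw]; positivity
  rw [← ha] at e1 hyes ⊢
  rw [← hb] at e2 hno ⊢
  rw [← ht] at e1 e2 e3
  rw [← hu] at e1 ⊢
  rw [← hw] at e2 ⊢
  have h3 : t ≤ δ * b + γ * a := by linarith
  unfold gap
  rw [div_mul_eq_mul_div, div_le_iff₀ (by positivity)]
  have hta : t ≤ a := by linarith
  have htb : t ≤ b := by linarith
  have hs : u + w = a + b - 2 * t := by linarith
  rw [hs]
  rcases le_total γ δ with h | h
  · rw [abs_of_nonpos (by linarith)]
    have := mul_nonneg (sub_nonneg.2 h) (sub_nonneg.2 hta)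
    nlinarith
  · rw [abs_of_nonneg (by linarith)]
    have := mul_nonneg (sub_nonneg.2 h) (sub_nonneg.2 htb)
    nlinarith

end overlap

section count

variable {I P : Type} [Fintype I] [DecidableEq I] [Fintype P]

theorem sum_flip (i : I) (f : (I → Bool) → ℝ) : ∑ x, f (Y601.SSE.flip i x) = ∑ x, f x :=
  Fintype.sum_equiv ⟨Y601.SSE.flip i, Y601.SSE.flip i, Y601.SSE.flip_flip i, Y601.SSE.flip_flip i⟩ _ _ fun _ => rfl

theorem one_variable (A : (I → Bool) → P → Prop) (c : ℝ) (i : I)
    (hpair : ∀ x, c * ((num (A x) : ℝ) + num (A (Y601.SSE.flip i x))) ≤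
      (only (A x) (A (Y601.SSE.flip i x)) : ℝ) + only (A (Y601.SSE.flip i x)) (A x)) :
    c * ∑ x, (num (A x) : ℝ) ≤ ∑ x, (only (A x) (A (Y601.SSE.flip i x)) : ℝ) := by
  have h1 := sum_le_sum fun x (_ : x ∈ (univ : Finset (I → Bool))) => hpair x
  rw [← mul_sum, sum_add_distrib, sum_add_distrib, sum_flip i fun x => (num (A x) : ℝ)] at h1
  have h2 : ∑ x, (only (A (Y601.SSE.flip i x)) (A x) : ℝ) = ∑ x, (only (A x) (A (Y601.SSE.flip i x)) : ℝ) := by
    rw [← sum_flip i fun x => (only (A x) (A (Y601.SSE.flip i x)) : ℝ)]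
    exact sum_congr rfl fun x _ => by rw [Y601.SSE.flip_flip]
  rw [h2] at h1
  linarith

theorem num_pos {A : (I → Bool) → P → Prop} (hne : ∀ x, ∃ p, A x p) :
    (2 : ℝ) ^ Fintype.card I ≤ ∑ x, (num (A x) : ℝ) := by
  have h : ∑ _x : I → Bool, (1 : ℝ) ≤ ∑ x, (num (A x) : ℝ) := by
    refine sum_le_sum fun x _ => ?_
    obtain ⟨p, hp⟩ := hne x
    have : 0 < num (A x) := card_pos.2 ⟨p, by simp [hp]⟩
    exact_mod_cast this
  rw [sum_const, nsmul_eq_mul, mul_one, card_univ, Fintype.card_fun, Fintype.card_bool] at h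
  push_cast at h
  exact h

/-- bits of small sensitivity at the inputs where they are one -/
theorem sens (A : (I → Bool) → P → Prop) (hne : ∀ x, ∃ p, A x p) (c : ℝ) (s : ℕ) (J : Finset I)
    (hs : ∀ p x, A x p → (J.filter fun i => ¬ A (Y601.SSE.flip i x) p).card ≤ s)
    (hpair : ∀ i ∈ J, ∀ x, c * ((num (A x) : ℝ) + num (A (Y601.SSE.flip i x))) ≤
      (only (A x) (A (Y601.SSE.flip i x)) : ℝ) + only (A (Y601.SSE.flip i x)) (A x)) :
    c * J.card ≤ s := by
  have hlost : ∀ x, ∑ i ∈ J, only (A x) (A (Y601.SSE.flip i x)) ≤ s * num (A x) := by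
    intro x
    unfold only num
    simp_rw [card_filter]
    rw [sum_comm, mul_sum]
    refine sum_le_sum fun p _ => ?_
    by_cases hp : A x p
    · simp only [hp, true_and, if_true, mul_one]
      rw [← card_filter]
      exact hs p x hp
    · simp [hp]
  have hsum1 : ∑ i ∈ J, ∑ x, (only (A x) (A (Y601.SSE.flip i x)) : ℝ) ≤ s * ∑ x, (num (A x) : ℝ) := by
    rw [sum_comm, mul_sum]
    refine sum_le_sum fun x _ => ?_
    exact_mod_cast hlost x
  have hsum2 := sum_le_sum fun i (hi : i ∈ J) => one_variable A c i (hpair i hi)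
  rw [sum_const, nsmul_eq_mul] at hsum2
  have hpos : (0 : ℝ) < ∑ x, (num (A x) : ℝ) := lt_of_lt_of_le (by positivity) (num_pos hne)
  have : c * J.card * ∑ x, (num (A x) : ℝ) ≤ s * ∑ x, (num (A x) : ℝ) := by
    calc c * J.card * ∑ x, (num (A x) : ℝ) = J.card * (c * ∑ x, (num (A x) : ℝ)) := by ring
      _ ≤ _ := hsum2.trans hsum1
  exact le_of_mul_le_mul_right this hpos

/-- each bit is, in each variable, nondecreasing or nonincreasing -/
def Unate (A : (I → Bool) → P → Prop) : Prop :=
  ∀ p i, (∀ x, A (Function.update x i false) p → A (Function.update x i true) p) ∨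
    (∀ x, A (Function.update x i true) p → A (Function.update x i false) p)

/-- the sign of a variable with the orientation `h` -/
noncomputable def sg (h : Prop) (b : Bool) : ℝ := if (h ↔ b = true) then 1 else -1

theorem sg_not (h : Prop) (b : Bool) : sg h (!b) = - sg h b := by
  unfold sg
  by_cases hh : h <;> cases b <;> simp [hh]

theorem sg_sum (h : Prop) (l : ℝ) : ∑ b : Bool, Real.exp (l * sg h b) = 2 * Real.cosh l := by
  rw [Fintype.sum_bool, Real.cosh_eq]
  unfold sg
  by_cases hh : h
  · simp [hh]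
    ring
  · simp [hh]
    ring

/-- the orientation of the variable `i` at the position `p` -/
def Inc (A : (I → Bool) → P → Prop) (p : P) (i : I) : Prop :=
  ∀ x, A (Function.update x i false) p → A (Function.update x i true) p

theorem boundary {A : (I → Bool) → P → Prop} (hA : Unate A) (p : P) (i : I) :
    ∑ x, (if A x p ∧ ¬ A (Y601.SSE.flip i x) p then (1 : ℝ) else 0) =
      ∑ x, if A x p then sg (Inc A p i) (x i) else 0 := by
  have key : ∀ x, A x p → ¬ A (Y601.SSE.flip i x) p → sg (Inc A p i) (x i) = 1 := by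
    intro x h1 h2
    unfold sg
    rw [if_pos]
    constructor
    · intro h3
      by_contra h4
      rw [Bool.not_eq_true] at h4
      apply h2
      have h5 := h3 x
      have h6 : Function.update x i false = x := by
        rw [← h4]; exact Function.update_eq_self i x
      rw [h6] at h5
      unfold Y601.SSE.flip
      rw [h4]
      exact h5 h1
    · intro h4
      by_contra h3
      rcases hA p i with h5 | h5
      · exact h3 h5
      · apply h2
        have h6 : Function.update x i true = x := by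
          rw [← h4]; exact Function.update_eq_self i x
        have h7 := h5 x
        rw [h6] at h7
        unfold Y601.SSE.flip
        rw [h4]
        exact h7 h1
  have hfl : ∀ x, sg (Inc A p i) (Y601.SSE.flip i x i) = - sg (Inc A p i) (x i) := by
    intro x
    have : Y601.SSE.flip i x i = !(x i) := by unfold Y601.SSE.flip; simp
    rw [this, sg_not]
  have e1 := sum_flip i fun x => if A x p ∧ ¬ A (Y601.SSE.flip i x) p then (1 : ℝ) else 0
  have e2 := sum_flip i fun x => if A x p then sg (Inc A p i) (x i) else 0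
  have e3 : ∑ x, ((if A x p ∧ ¬ A (Y601.SSE.flip i x) p then (1 : ℝ) else 0) +
      (if A (Y601.SSE.flip i x) p ∧ ¬ A (Y601.SSE.flip i (Y601.SSE.flip i x)) p then (1 : ℝ) else 0)) =
      ∑ x, ((if A x p then sg (Inc A p i) (x i) else 0) +
        (if A (Y601.SSE.flip i x) p then sg (Inc A p i) (Y601.SSE.flip i x i) else 0)) := by
    refine sum_congr rfl fun x _ => ?_
    rw [Y601.SSE.flip_flip]
    by_cases h1 : A x p
    · by_cases h2 : A (Y601.SSE.flip i x) p
      · rw [hfl]
        simp [h1, h2]
      · simp [h1, h2, key x h1 h2]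
    · by_cases h2 : A (Y601.SSE.flip i x) p
      · have := key (Y601.SSE.flip i x) h2 (by rw [Y601.SSE.flip_flip]; exact h1)
        simp [h1, h2, this]
      · simp [h1, h2]
  rw [sum_add_distrib, sum_add_distrib, e1, e2] at e3
  linarith

theorem moment (A : (I → Bool) → P → Prop) (p : P) (l : ℝ) :
    ∑ x : I → Bool, Real.exp (l * ∑ i, sg (Inc A p i) (x i)) = (2 * Real.cosh l) ^ Fintype.card I := by
  have h1 : ∀ x : I → Bool, Real.exp (l * ∑ i, sg (Inc A p i) (x i)) =
      ∏ i, Real.exp (l * sg (Inc A p i) (x i)) := by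
    intro x
    rw [mul_sum, Real.exp_sum]
  simp_rw [h1]
  have h2 := Finset.prod_univ_sum (fun _ : I => (univ : Finset Bool))
    fun i b => Real.exp (l * sg (Inc A p i) b)
  rw [Fintype.piFinset_univ] at h2
  rw [← h2, prod_congr rfl fun i _ => sg_sum (Inc A p i) l, prod_const, card_univ]

/-- presence bits which are disjunctions of `k` unate bits: exponentially many positions -/
theorem unate {k : ℕ} {U : (I → Bool) → P × Fin k → Prop} (hU : Unate U)
    {A : (I → Bool) → P → Prop} (hAU : ∀ x p, A x p ↔ ∃ j, U x (p, j))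
    (hne : ∀ x, ∃ p, A x p) {c : ℝ} (hc : 0 ≤ c)
    (hpair : ∀ i x, c * ((num (A x) : ℝ) + num (A (Y601.SSE.flip i x))) ≤
      (only (A x) (A (Y601.SSE.flip i x)) : ℝ) + only (A (Y601.SSE.flip i x)) (A x)) :
    Real.exp (c ^ 2 * Fintype.card I / (2 * k ^ 2)) ≤ k * Fintype.card P := by
  obtain ⟨T, hT⟩ : ∃ T : ℝ, T = ∑ x, (num (A x) : ℝ) := ⟨_, rfl⟩
  have hT2 : (2 : ℝ) ^ Fintype.card I ≤ T := hT ▸ num_pos hne
  have hTpos : 0 < T := lt_of_lt_of_le (by positivity) hT2
  obtain ⟨T', hT'⟩ : ∃ T' : ℝ, T' = ∑ x, (num (U x) : ℝ) := ⟨_, rfl⟩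
  have hneU : ∀ x, ∃ q, U x q := by
    intro x
    obtain ⟨p, hp⟩ := hne x
    obtain ⟨j, hj⟩ := (hAU x p).1 hp
    exact ⟨_, hj⟩
  have hT'2 : (2 : ℝ) ^ Fintype.card I ≤ T' := hT' ▸ num_pos hneU
  have hkT : T' ≤ k * T := by
    rw [hT', hT, mul_sum]
    refine sum_le_sum fun x _ => ?_
    have h1 : num (U x) ≤ k * num (A x) := by
      unfold num
      calc (univ.filter fun q => U x q).card
          ≤ ((univ.filter fun p => A x p) ×ˢ (univ : Finset (Fin k))).card := by
            refine card_le_card ?_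
            intro q hq
            simp only [mem_filter, mem_univ, true_and, mem_product, and_true] at hq ⊢
            exact (hAU x q.1).2 ⟨q.2, hq⟩
        _ = k * (univ.filter fun p => A x p).card := by
            rw [card_product, card_univ, Fintype.card_fin, mul_comm]
    exact_mod_cast h1
  have hk : 1 ≤ k := by
    obtain ⟨q, -⟩ := hneU fun _ => false
    exact Nat.one_le_of_lt (lt_of_le_of_lt (Nat.zero_le _) q.2.2)
  have hk0 : (1 : ℝ) ≤ k := by exact_mod_cast hk
  have hM : (1 : ℝ) ≤ Fintype.card (P × Fin k) := by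
    obtain ⟨q, -⟩ := hneU fun _ => false
    exact_mod_cast Fintype.card_pos_iff.2 ⟨q⟩
  have honly : ∀ i x, only (A x) (A (Y601.SSE.flip i x)) ≤ only (U x) (U (Y601.SSE.flip i x)) := by
    intro i x
    unfold only
    refine le_trans (card_le_card ?_) (card_image_le (s := univ.filter fun q => U x q ∧
      ¬ U (Y601.SSE.flip i x) q) (f := Prod.fst))
    intro p hp
    simp only [mem_filter, mem_univ, true_and, mem_image] at hp ⊢
    obtain ⟨j, hj⟩ := (hAU x p).1 hp.1
    exact ⟨(p, j), ⟨hj, fun h => hp.2 ((hAU _ p).2 ⟨j, h⟩)⟩, rfl⟩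
  -- the sum of the linear forms
  have hlin : c * Fintype.card I * T ≤
      ∑ q, ∑ x, if U x q then ∑ i, sg (Inc U q i) (x i) else 0 := by
    have h1 : ∀ i, c * T ≤ ∑ q, ∑ x, if U x q then sg (Inc U q i) (x i) else 0 := by
      intro i
      have h2 := one_variable A c i (hpair i)
      rw [← hT] at h2
      have h2' : ∑ x, (only (A x) (A (Y601.SSE.flip i x)) : ℝ) ≤
          ∑ x, (only (U x) (U (Y601.SSE.flip i x)) : ℝ) :=
        sum_le_sum fun x _ => by exact_mod_cast honly i x
      refine (h2.trans h2').trans (le_of_eq ?_)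
      calc ∑ x, (only (U x) (U (Y601.SSE.flip i x)) : ℝ)
          = ∑ x, ∑ q, (if U x q ∧ ¬ U (Y601.SSE.flip i x) q then (1 : ℝ) else 0) := by
            refine sum_congr rfl fun x _ => ?_
            unfold only
            rw [card_filter]
            push_cast
            rfl
        _ = ∑ q, ∑ x, (if U x q ∧ ¬ U (Y601.SSE.flip i x) q then (1 : ℝ) else 0) := sum_comm
        _ = _ := sum_congr rfl fun q _ => boundary hU q i
    have h3 := sum_le_sum fun i (_ : i ∈ (univ : Finset I)) => h1 i
    rw [sum_const, nsmul_eq_mul, card_univ, sum_comm] at h3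
    have h4 : ∑ q, ∑ i, ∑ x, (if U x q then sg (Inc U q i) (x i) else 0) =
        ∑ q, ∑ x, if U x q then ∑ i, sg (Inc U q i) (x i) else 0 := by
      refine sum_congr rfl fun q _ => ?_
      rw [sum_comm]
      refine sum_congr rfl fun x _ => ?_
      by_cases h : U x q
      · simp [h]
      · simp [h]
    rw [h4] at h3
    linarith
  obtain ⟨l, hl⟩ : ∃ l : ℝ, l = c / k := ⟨_, rfl⟩
  have hl0 : 0 ≤ l := by rw [hl]; positivity
  have hlk : l * k = c := by rw [hl]; field_simp
  obtain ⟨μ, hμ⟩ : ∃ μ : ℝ, μ = Real.log (Fintype.card (P × Fin k) *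
    Real.cosh l ^ Fintype.card I) := ⟨_, rfl⟩
  have hco : 0 < Real.cosh l := Real.cosh_pos l
  have hco1 : 1 ≤ Real.cosh l := Real.one_le_cosh l
  have hμ0 : 0 ≤ μ := by
    rw [hμ]
    exact Real.log_nonneg (one_le_mul_of_one_le_of_one_le hM (one_le_pow₀ hco1))
  have hexpμ : Real.exp μ = Fintype.card (P × Fin k) * Real.cosh l ^ Fintype.card I := by
    rw [hμ, Real.exp_log (by positivity)]
  have hup : ∑ q, ∑ x, (if U x q then l * (∑ i, sg (Inc U q i) (x i)) - μ + 1 else 0) ≤
      (2 : ℝ) ^ Fintype.card I := by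
    calc ∑ q, ∑ x, (if U x q then l * (∑ i, sg (Inc U q i) (x i)) - μ + 1 else 0)
        ≤ ∑ q, ∑ x : I → Bool, Real.exp (l * (∑ i, sg (Inc U q i) (x i)) - μ) := by
          refine sum_le_sum fun q _ => sum_le_sum fun x _ => ?_
          by_cases h : U x q
          · rw [if_pos h]
            exact Real.add_one_le_exp _
          · rw [if_neg h]
            exact (Real.exp_pos _).le
      _ = ∑ _q : P × Fin k, Real.exp (-μ) * (2 * Real.cosh l) ^ Fintype.card I := by
          refine sum_congr rfl fun q _ => ?_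
          rw [← moment U q l, mul_sum]
          refine sum_congr rfl fun x _ => ?_
          rw [← Real.exp_add]
          congr 1
          ring
      _ = (2 : ℝ) ^ Fintype.card I := by
          rw [sum_const, nsmul_eq_mul, card_univ, Real.exp_neg, hexpμ, mul_pow]
          field_simp
  have hup2 : l * (∑ q, ∑ x, if U x q then ∑ i, sg (Inc U q i) (x i) else 0) ≤ μ * T' := by
    have h1 : ∑ q, ∑ x, (if U x q then l * (∑ i, sg (Inc U q i) (x i)) - μ + 1 else 0) =
        l * (∑ q, ∑ x, if U x q then ∑ i, sg (Inc U q i) (x i) else 0) + (1 - μ) * T' := by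
      have h2 : T' = ∑ q : P × Fin k, ∑ x : I → Bool, if U x q then (1 : ℝ) else 0 := by
        rw [hT', sum_comm]
        refine sum_congr rfl fun x _ => ?_
        unfold num
        rw [card_filter]
        push_cast
        rfl
      rw [h2, mul_sum, mul_sum, ← sum_add_distrib]
      refine sum_congr rfl fun q _ => ?_
      rw [mul_sum, mul_sum, ← sum_add_distrib]
      refine sum_congr rfl fun x _ => ?_
      by_cases h : U x q
      · simp only [h, if_true]
        ring
      · simp [h]
    rw [h1] at hup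
    nlinarith
  have h5 : l * (c * Fintype.card I) * T ≤ μ * k * T := by
    calc l * (c * Fintype.card I) * T = l * (c * Fintype.card I * T) := by ring
      _ ≤ μ * T' := (mul_le_mul_of_nonneg_left hlin hl0).trans hup2
      _ ≤ μ * (k * T) := mul_le_mul_of_nonneg_left hkT hμ0
      _ = μ * k * T := by ring
  have h6 : l * (c * Fintype.card I) ≤ μ * k := le_of_mul_le_mul_right h5 hTpos
  have h6' : l * l * Fintype.card I ≤ μ := by
    have : l * l * Fintype.card I * k ≤ μ * k := by
      calc l * l * Fintype.card I * k = l * ((l * k) * Fintype.card I) := by ring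
        _ = l * (c * Fintype.card I) := by rw [hlk]
        _ ≤ _ := h6
    exact le_of_mul_le_mul_right this (by linarith)
  have h7 : Real.log (Real.cosh l) ≤ l ^ 2 / 2 := by
    rw [Real.log_le_iff_le_exp hco]
    exact Real.cosh_le_exp_half_sq l
  have h8 : μ = Real.log (Fintype.card (P × Fin k)) + Fintype.card I * Real.log (Real.cosh l) := by
    rw [hμ, Real.log_mul (by positivity) (by positivity), Real.log_pow]
  have h9 : (Fintype.card I : ℝ) * Real.log (Real.cosh l) ≤ Fintype.card I * (l ^ 2 / 2) :=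
    mul_le_mul_of_nonneg_left h7 (Nat.cast_nonneg _)
  have h10 : (k : ℝ) * Fintype.card P = Fintype.card (P × Fin k) := by
    rw [Fintype.card_prod, Fintype.card_fin]
    push_cast
    ring
  have h11 : c ^ 2 * Fintype.card I / (2 * k ^ 2) = l ^ 2 * Fintype.card I / 2 := by
    rw [hl]
    field_simp
  rw [h10, ← Real.le_log_iff_exp_le (by linarith), h11]
  rw [h8] at h6'
  nlinarith

end count

end Pool.Agent.V11201.GP
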