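import Pool.Agent.V11201.GP.Ac0

set_option autoImplicit false

/-!
Reductions from parity to constraint satisfaction problems with a gap.
-/

namespace Pool.Agent.V11201.GP

open Finset Pool.Agent.Y601.SSE DomAC0 H568R2 Pool.Agent.TH163.AC3
open scoped Classical

section

variable {I P α : Type} [Fintype I] [DecidableEq I] [Fintype P]

theorem num_split (E S : P → Prop) :
    ((num fun p => E p ∧ S p : ℕ) : ℝ) + (num fun p => E p ∧ ¬ S p : ℕ) = num E := by
  have h := num_eq E S
  have h2 : only E S = num fun p => E p ∧ ¬ S p := by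
    unfold only num
    congr 1
    ext p
    simp
  rw [h2] at h
  have h3 : ((num E : ℕ) : ℝ) = (num fun p => E p ∧ ¬ S p : ℕ) + (num fun p => E p ∧ S p : ℕ) := by
    exact_mod_cast h
  linarith

/-- a problem with a gap: yes instances at the inputs of even weight and no instances at the others
differ much when one variable is changed -/
theorem pair_of_gap {A : (I → Bool) → P → Prop} {S : α → P → Prop} {γ δ : ℝ}
    (hyes : ∀ x, Even (univ.filter fun i => x i = true).card →
      ∃ a, (1 - γ) * (num (A x) : ℝ) ≤ (num fun p => A x p ∧ S a p : ℕ))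
    (hno : ∀ x, Odd (univ.filter fun i => x i = true).card →
      ∀ a, ((num fun p => A x p ∧ S a p : ℕ) : ℝ) ≤ δ * num (A x)) (i : I) (x : I → Bool) :
    gap γ δ * ((num (A x) : ℝ) + num (A (Y601.SSE.flip i x))) ≤
      (only (A x) (A (Y601.SSE.flip i x)) : ℝ) + only (A (Y601.SSE.flip i x)) (A x) := by
  have hpar := odd_flip i x
  by_cases hodd : Odd (univ.filter fun j => x j = true).card
  · have hev : Even (univ.filter fun j => Y601.SSE.flip i x j = true).card := by
      rw [← Nat.not_odd_iff_even, hpar]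
      exact not_not.2 hodd
    obtain ⟨a, ha⟩ := hyes _ hev
    have h1 := differ (E := A (Y601.SSE.flip i x)) (F := A x) (S := S a) (γ := γ) (δ := δ)
      (by have := num_split (A (Y601.SSE.flip i x)) (S a); linarith) (hno x hodd a)
    linarith
  · have hod : Odd (univ.filter fun j => Y601.SSE.flip i x j = true).card := hpar.2 hodd
    obtain ⟨a, ha⟩ := hyes x (Nat.not_odd_iff_even.1 hodd)
    exact differ (E := A x) (F := A (Y601.SSE.flip i x)) (S := S a)
      (by have := num_split (A x) (S a); linarith) (hno _ hod a)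

end

/-- (1) small sensitivity -/
theorem csp_sens {N s : ℕ} {P α : Type} [Fintype P] {A : (Fin N → Bool) → P → Prop}
    {S : α → P → Prop} {γ δ : ℝ} (hne : ∀ x, ∃ p, A x p)
    (hyes : ∀ x, Even (univ.filter fun i => x i = true).card →
      ∃ a, (1 - γ) * (num (A x) : ℝ) ≤ (num fun p => A x p ∧ S a p : ℕ))
    (hno : ∀ x, Odd (univ.filter fun i => x i = true).card →
      ∀ a, ((num fun p => A x p ∧ S a p : ℕ) : ℝ) ≤ δ * num (A x))
    (hs : ∀ p x, A x p → (univ.filter fun i => ¬ A (Function.update x i (!(x i))) p).card ≤ s) :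
    gap γ δ * N ≤ s := by
  have h := sens A hne (gap γ δ) s univ hs fun i _ x => pair_of_gap hyes hno i x
  rwa [card_univ, Fintype.card_fin] at h

/-- (2) small depth -/
theorem csp_ac0 (h : ℕ) : ∃ X0 : ℝ, ∀ {N : ℕ} (C : Circuit (Fin N)) {P α : Type} [Fintype P]
    (out : P → Fin N ⊕ Fin C.size) (S : α → P → Prop) (γ δ : ℝ),
    (∀ p, C.nodeDepth (out p) ≤ h) → γ + δ ≤ 1 → (∀ x, ∃ p, C.nodeVal x (out p) = true) →
    (∀ x, Even (univ.filter fun i => x i = true).card →
      ∃ a, (1 - γ) * (num (fun p => C.nodeVal x (out p) = true) : ℝ) ≤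
        (num fun p => C.nodeVal x (out p) = true ∧ S a p : ℕ)) →
    (∀ x, Odd (univ.filter fun i => x i = true).card →
      ∀ a, ((num fun p => C.nodeVal x (out p) = true ∧ S a p : ℕ) : ℝ) ≤
        δ * num (fun p => C.nodeVal x (out p) = true)) →
    X0 ≤ gap γ δ * N → (2 : ℝ) ^ ((gap γ δ * N) ^ (1 / (h + 1 : ℝ)) / 100) ≤ C.size := by
  obtain ⟨X0, hX0⟩ := ac0_main h
  refine ⟨X0, ?_⟩
  intro N C P α _ out S γ δ hh hγδ hne hyes hno hX
  exact hX0 C out (gap γ δ) hh hne (gap_nonneg hγδ)
    (fun i x => pair_of_gap (A := Pres C out) (S := S) hyes hno i x) hX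

/-- (3) disjunctions of unate bits -/
theorem csp_unate {N k : ℕ} {P α : Type} [Fintype P] {A : (Fin N → Bool) → P → Prop}
    {U : (Fin N → Bool) → P × Fin k → Prop} (hU : Unate U)
    (hAU : ∀ x p, A x p ↔ ∃ j, U x (p, j)) {S : α → P → Prop} {γ δ : ℝ} (hγδ : γ + δ ≤ 1)
    (hne : ∀ x, ∃ p, A x p)
    (hyes : ∀ x, Even (univ.filter fun i => x i = true).card →
      ∃ a, (1 - γ) * (num (A x) : ℝ) ≤ (num fun p => A x p ∧ S a p : ℕ))
    (hno : ∀ x, Odd (univ.filter fun i => x i = true).card →
      ∀ a, ((num fun p => A x p ∧ S a p : ℕ) : ℝ) ≤ δ * num (A x)) :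
    Real.exp (gap γ δ ^ 2 * N / (2 * k ^ 2)) ≤ k * Fintype.card P := by
  have h := unate hU hAU hne (gap_nonneg hγδ) fun i x => pair_of_gap hyes hno i x
  rwa [Fintype.card_fin] at h

end Pool.Agent.V11201.GP
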