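import Pool.Agent.V11201.GP.Wt

set_option autoImplicit false

/-!
Vertex covers: yes instances and no instances differ in many edges.
-/

namespace Pool.Agent.V11201.GP

open Finset Pool.Agent.Y601.SSE DomAC0 H568R2 Pool.Agent.TH163.AC3
open scoped Classical

section

variable {V : Type} [Fintype V]

/-- `S` is a vertex cover of `G` -/
def IsCover (G : SimpleGraph V) (S : Finset V) : Prop := ∀ u v, G.Adj u v → u ∈ S ∨ v ∈ S

/-- the weight of a pair -/
def pw (w : V → ℝ) (p : V × V) : ℝ := min (w p.1) (w p.2)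

theorem cover_ext (w : V → ℝ) (hw : ∀ v, 0 ≤ w v) (G H : SimpleGraph V) (S : Finset V)
    (hS : IsCover G S) : ∃ S', IsCover H S' ∧ ∑ v ∈ S', w v ≤ ∑ v ∈ S, w v +
      wonly (pw w) (fun p : V × V => H.Adj p.1 p.2) fun p : V × V => G.Adj p.1 p.2 := by
  obtain ⟨B, hB⟩ : ∃ B : Finset V, B = univ.filter fun v => ∃ u, (H.Adj u v ∧ ¬ G.Adj u v) ∧
    w v ≤ w u := ⟨_, rfl⟩
  refine ⟨S ∪ B, ?_, ?_⟩
  · intro u v huv
    by_cases hG : G.Adj u v
    · rcases hS u v hG with h | h
      · exact Or.inl (mem_union_left _ h)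
      · exact Or.inr (mem_union_left _ h)
    · rcases le_total (w u) (w v) with h | h
      · left
        refine mem_union_right _ ?_
        rw [hB, mem_filter]
        exact ⟨mem_univ _, v, ⟨huv.symm, fun h2 => hG h2.symm⟩, h⟩
      · right
        refine mem_union_right _ ?_
        rw [hB, mem_filter]
        exact ⟨mem_univ _, u, ⟨huv, hG⟩, h⟩
  · have h1 : ∑ v ∈ S ∪ B, w v ≤ ∑ v ∈ S, w v + ∑ v ∈ B, w v := by
      rw [← sum_union_inter]
      have : 0 ≤ ∑ v ∈ S ∩ B, w v := sum_nonneg fun v _ => hw v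
      linarith
    have h0 : ∀ u v, 0 ≤ if H.Adj u v ∧ ¬ G.Adj u v then pw w (u, v) else 0 := by
      intro u v
      split_ifs
      · exact le_min (hw u) (hw v)
      · exact le_rfl
    have h2 : ∑ v ∈ B, w v ≤
        ∑ v, ∑ u, if H.Adj u v ∧ ¬ G.Adj u v then pw w (u, v) else 0 := by
      refine (sum_le_sum (f := w) (g := fun v => ∑ u, if H.Adj u v ∧ ¬ G.Adj u v then
        pw w (u, v) else 0) fun v hv => ?_).trans (sum_le_sum_of_subset_of_nonneg
          (subset_univ _) fun v _ _ => sum_nonneg fun u _ => h0 u v)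
      rw [hB, mem_filter] at hv
      obtain ⟨u, hu, huw⟩ := hv.2
      refine le_trans (le_of_eq ?_) (single_le_sum (f := fun u => if H.Adj u v ∧ ¬ G.Adj u v then
        pw w (u, v) else 0) (fun u _ => h0 u v) (mem_univ u))
      rw [if_pos hu]
      exact (min_eq_right huw).symm
    have h3 : wonly (pw w) (fun p : V × V => H.Adj p.1 p.2) (fun p : V × V => G.Adj p.1 p.2) =
        ∑ v, ∑ u, if H.Adj u v ∧ ¬ G.Adj u v then pw w (u, v) else 0 := by
      unfold wonly
      rw [Fintype.sum_prod_type_right]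
    rw [h3]
    linarith

/-- no instances have heavy edges -/
theorem heavy (w : V → ℝ) (hw : ∀ v, 0 ≤ w v) (G : SimpleGraph V) {t : ℝ}
    (hno : ∀ S, IsCover G S → t ≤ ∑ v ∈ S, w v) :
    t ≤ wt (pw w) fun p : V × V => G.Adj p.1 p.2 := by
  obtain ⟨S', h1, h2⟩ := cover_ext w hw ⊥ G ∅ (by intro u v h; exact absurd h (by simp))
  refine (hno S' h1).trans (h2.trans (le_of_eq ?_))
  rw [sum_empty, zero_add]
  unfold wonly wt
  refine sum_congr rfl fun p _ => ?_
  simp

theorem pair_vc {I : Type} [Fintype I] [DecidableEq I] (w : V → ℝ) (hw : ∀ v, 0 ≤ w v)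
    (G : (I → Bool) → SimpleGraph V) {t ρ D : ℝ} (hD : 0 < D)
    (hlight : ∀ x, wt (pw w) (fun p : V × V => (G x).Adj p.1 p.2) ≤ 2 * D * t)
    (hyes : ∀ x, Even (univ.filter fun i => x i = true).card →
      ∃ S, IsCover (G x) S ∧ ∑ v ∈ S, w v ≤ t)
    (hno : ∀ x, Odd (univ.filter fun i => x i = true).card →
      ∀ S, IsCover (G x) S → ρ * t ≤ ∑ v ∈ S, w v) (hρ : 1 ≤ ρ) (i : I) (x : I → Bool) :
    (ρ - 1) / (4 * D) * (wt (pw w) (fun p : V × V => (G x).Adj p.1 p.2) +
        wt (pw w) (fun p : V × V => (G (Y601.SSE.flip i x)).Adj p.1 p.2)) ≤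
      wonly (pw w) (fun p : V × V => (G x).Adj p.1 p.2)
          (fun p : V × V => (G (Y601.SSE.flip i x)).Adj p.1 p.2) +
        wonly (pw w) (fun p : V × V => (G (Y601.SSE.flip i x)).Adj p.1 p.2)
          (fun p : V × V => (G x).Adj p.1 p.2) := by
  have hpos : ∀ A B : V × V → Prop, 0 ≤ wonly (pw w) A B := by
    intro A B
    refine sum_nonneg fun p _ => ?_
    split_ifs
    · exact le_min (hw _) (hw _)
    · exact le_rfl
  have key : ∀ y z : I → Bool, (Even (univ.filter fun i => y i = true).card) →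
      (Odd (univ.filter fun i => z i = true).card) →
      (ρ - 1) * t ≤ wonly (pw w) (fun p : V × V => (G z).Adj p.1 p.2)
        (fun p : V × V => (G y).Adj p.1 p.2) := by
    intro y z hy hz
    obtain ⟨S, hS, hSt⟩ := hyes y hy
    obtain ⟨S', h1, h2⟩ := cover_ext w hw (G y) (G z) S hS
    have := hno z hz S' h1
    linarith
  have hup : (ρ - 1) / (4 * D) * (wt (pw w) (fun p : V × V => (G x).Adj p.1 p.2) +
      wt (pw w) (fun p : V × V => (G (Y601.SSE.flip i x)).Adj p.1 p.2)) ≤ (ρ - 1) * t := by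
    have h1 := hlight x
    have h2 := hlight (Y601.SSE.flip i x)
    have h3 : 0 ≤ (ρ - 1) / (4 * D) := div_nonneg (by linarith) (by positivity)
    calc (ρ - 1) / (4 * D) * (wt (pw w) (fun p : V × V => (G x).Adj p.1 p.2) +
          wt (pw w) (fun p : V × V => (G (Y601.SSE.flip i x)).Adj p.1 p.2))
        ≤ (ρ - 1) / (4 * D) * (2 * D * t + 2 * D * t) :=
          mul_le_mul_of_nonneg_left (add_le_add h1 h2) h3
      _ = (ρ - 1) * t := by field_simp; ring
  have hpar := odd_flip i x
  by_cases hodd : Odd (univ.filter fun j => x j = true).card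
  · have hev : Even (univ.filter fun j => Y601.SSE.flip i x j = true).card := by
      rw [← Nat.not_odd_iff_even, hpar]
      exact not_not.2 hodd
    have h1 := key _ _ hev hodd
    have h2 := hpos (fun p : V × V => (G (Y601.SSE.flip i x)).Adj p.1 p.2)
      (fun p : V × V => (G x).Adj p.1 p.2)
    linarith
  · have hod : Odd (univ.filter fun j => Y601.SSE.flip i x j = true).card := hpar.2 hodd
    have h1 := key _ _ (Nat.not_odd_iff_even.1 hodd) hod
    have h2 := hpos (fun p : V × V => (G x).Adj p.1 p.2)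
      (fun p : V × V => (G (Y601.SSE.flip i x)).Adj p.1 p.2)
    linarith

theorem total {I : Type} [Fintype I] [DecidableEq I] (w : V → ℝ) (hw : ∀ v, 0 ≤ w v)
    (G : (I → Bool) → SimpleGraph V) {t : ℝ}
    (hno : ∀ x, Odd (univ.filter fun i => x i = true).card →
      ∀ S, IsCover (G x) S → t ≤ ∑ v ∈ S, w v) (i : I) :
    2 ^ Fintype.card I * (t / 2) ≤ ∑ x, wt (pw w) (fun p : V × V => (G x).Adj p.1 p.2) := by
  have hpos : ∀ A : V × V → Prop, 0 ≤ wt (pw w) A := by
    intro A
    refine sum_nonneg fun p _ => ?_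
    split_ifs
    · exact le_min (hw _) (hw _)
    · exact le_rfl
  have h1 : ∑ _x : I → Bool, t ≤ ∑ x, (wt (pw w) (fun p : V × V => (G x).Adj p.1 p.2) +
      wt (pw w) (fun p : V × V => (G (Y601.SSE.flip i x)).Adj p.1 p.2)) := by
    refine sum_le_sum fun x _ => ?_
    have hpar := odd_flip i x
    by_cases hodd : Odd (univ.filter fun j => x j = true).card
    · have h2 := heavy w hw (G x) (hno x hodd)
      have h3 := hpos (fun p : V × V => (G (Y601.SSE.flip i x)).Adj p.1 p.2)
      linarith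
    · have h2 := heavy w hw _ (hno _ (hpar.2 hodd))
      have h3 := hpos (fun p : V × V => (G x).Adj p.1 p.2)
      linarith
  rw [sum_add_distrib, sum_flip i fun x => wt (pw w) (fun p : V × V => (G x).Adj p.1 p.2),
    sum_const, nsmul_eq_mul, card_univ, Fintype.card_fun, Fintype.card_bool] at h1
  push_cast at h1
  linarith

end

end Pool.Agent.V11201.GP
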