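import Pool.Agent.V11201.GP.Ac0

set_option autoImplicit false

/-!
Weighted positions.
-/

namespace Pool.Agent.V11201.GP

open Finset Pool.Agent.Y601.SSE DomAC0 H568R2 Pool.Agent.TH163.AC3
open scoped Classical

section count

variable {I P : Type} [Fintype I] [DecidableEq I] [Fintype P]

/-- the weight of the positions with the property `E` -/
noncomputable def wt (ω : P → ℝ) (E : P → Prop) : ℝ := ∑ p, if E p then ω p else 0

/-- the weight of the positions with the property `E` and without the property `F` -/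
noncomputable def wonly (ω : P → ℝ) (E F : P → Prop) : ℝ := ∑ p, if E p ∧ ¬ F p then ω p else 0

theorem one_variable_w (ω : P → ℝ) (A : (I → Bool) → P → Prop) (c : ℝ) (i : I)
    (hpair : ∀ x, c * (wt ω (A x) + wt ω (A (Y601.SSE.flip i x))) ≤
      wonly ω (A x) (A (Y601.SSE.flip i x)) + wonly ω (A (Y601.SSE.flip i x)) (A x)) :
    c * ∑ x, wt ω (A x) ≤ ∑ x, wonly ω (A x) (A (Y601.SSE.flip i x)) := by
  have h1 := sum_le_sum fun x (_ : x ∈ (univ : Finset (I → Bool))) => hpair x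
  rw [← mul_sum, sum_add_distrib, sum_add_distrib, sum_flip i fun x => wt ω (A x)] at h1
  have h2 : ∑ x, wonly ω (A (Y601.SSE.flip i x)) (A x) =
      ∑ x, wonly ω (A x) (A (Y601.SSE.flip i x)) := by
    rw [← sum_flip i fun x => wonly ω (A x) (A (Y601.SSE.flip i x))]
    exact sum_congr rfl fun x _ => by rw [Y601.SSE.flip_flip]
  rw [h2] at h1
  linarith

/-- bits of small sensitivity at the inputs where they are one -/
theorem sens_w {ω : P → ℝ} (hω : ∀ p, 0 ≤ ω p) (A : (I → Bool) → P → Prop)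
    (hT : 0 < ∑ x, wt ω (A x)) (c : ℝ) (s : ℕ) (J : Finset I)
    (hs : ∀ p x, A x p → (J.filter fun i => ¬ A (Y601.SSE.flip i x) p).card ≤ s)
    (hpair : ∀ i ∈ J, ∀ x, c * (wt ω (A x) + wt ω (A (Y601.SSE.flip i x))) ≤
      wonly ω (A x) (A (Y601.SSE.flip i x)) + wonly ω (A (Y601.SSE.flip i x)) (A x)) :
    c * J.card ≤ s := by
  have hlost : ∀ x, ∑ i ∈ J, wonly ω (A x) (A (Y601.SSE.flip i x)) ≤ s * wt ω (A x) := by
    intro x
    unfold wonly wt
    rw [sum_comm, mul_sum]
    refine sum_le_sum fun p _ => ?_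
    by_cases hp : A x p
    · simp only [hp, true_and, if_true]
      rw [← sum_filter, sum_const, nsmul_eq_mul]
      exact mul_le_mul_of_nonneg_right (by exact_mod_cast hs p x hp) (hω p)
    · simp [hp]
  have hsum1 : ∑ i ∈ J, ∑ x, wonly ω (A x) (A (Y601.SSE.flip i x)) ≤ s * ∑ x, wt ω (A x) := by
    rw [sum_comm, mul_sum]
    exact sum_le_sum fun x _ => hlost x
  have hsum2 := sum_le_sum fun i (hi : i ∈ J) => one_variable_w ω A c i (hpair i hi)
  rw [sum_const, nsmul_eq_mul] at hsum2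
  have : c * J.card * ∑ x, wt ω (A x) ≤ s * ∑ x, wt ω (A x) := by
    calc c * J.card * ∑ x, wt ω (A x) = J.card * (c * ∑ x, wt ω (A x)) := by ring
      _ ≤ _ := hsum2.trans hsum1
  exact le_of_mul_le_mul_right this hT

/-- presence bits which are disjunctions of `k` unate bits, with weights -/
theorem unate_w {k : ℕ} {ω : P → ℝ} (hω : ∀ p, 0 ≤ ω p) {U : (I → Bool) → P × Fin k → Prop}
    (hU : Unate U)
    {A : (I → Bool) → P → Prop} (hAU : ∀ x p, A x p ↔ ∃ j, U x (p, j)) {τ : ℝ} (hτ : 0 < τ)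
    (hT2' : 2 ^ Fintype.card I * τ ≤ ∑ x, wt ω (A x)) (hΩ : τ ≤ ∑ p, ω p) (hk : 1 ≤ k)
    {c : ℝ} (hc : 0 ≤ c)
    (hpair : ∀ i x, c * (wt ω (A x) + wt ω (A (Y601.SSE.flip i x))) ≤
      wonly ω (A x) (A (Y601.SSE.flip i x)) + wonly ω (A (Y601.SSE.flip i x)) (A x)) :
    Real.exp (c ^ 2 * Fintype.card I / (2 * k ^ 2)) ≤ k * (∑ p, ω p) / τ := by
  obtain ⟨ω', hω'⟩ : ∃ ω' : P × Fin k → ℝ, ω' = fun q => ω q.1 := ⟨_, rfl⟩
  have hω'0 : ∀ q, 0 ≤ ω' q := fun q => by rw [hω']; exact hω q.1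
  obtain ⟨T, hT⟩ : ∃ T : ℝ, T = ∑ x, wt ω (A x) := ⟨_, rfl⟩
  rw [← hT] at hT2'
  have hTpos : 0 < T := lt_of_lt_of_le (by positivity) hT2'
  obtain ⟨T', hT'⟩ : ∃ T' : ℝ, T' = ∑ x, wt ω' (U x) := ⟨_, rfl⟩
  have hUA : ∀ x, wt ω' (U x) = ∑ p, ∑ j : Fin k, if U x (p, j) then ω p else 0 := by
    intro x
    unfold wt
    rw [Fintype.sum_prod_type, hω']
  have hTT' : T ≤ T' := by
    rw [hT', hT]
    refine sum_le_sum fun x _ => ?_
    rw [hUA]
    unfold wt
    refine sum_le_sum fun p _ => ?_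
    by_cases h : A x p
    · rw [if_pos h]
      obtain ⟨j, hj⟩ := (hAU x p).1 h
      refine le_trans (le_of_eq ?_) (single_le_sum (f := fun j => if U x (p, j) then ω p else 0)
        (fun j _ => ?_) (mem_univ j))
      · simp [hj]
      · show (0 : ℝ) ≤ if U x (p, j) then ω p else 0
        split_ifs
        · exact hω p
        · exact le_rfl
    · rw [if_neg h]
      exact sum_nonneg fun j _ => by
        split_ifs
        · exact hω p
        · exact le_rfl
  have hkT : T' ≤ k * T := by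
    rw [hT', hT, mul_sum]
    refine sum_le_sum fun x _ => ?_
    rw [hUA]
    unfold wt
    rw [mul_sum]
    refine sum_le_sum fun p _ => ?_
    by_cases h : A x p
    · rw [if_pos h]
      calc ∑ j : Fin k, (if U x (p, j) then ω p else 0) ≤ ∑ _j : Fin k, ω p := by
            refine sum_le_sum fun j _ => ?_
            split_ifs
            · exact le_rfl
            · exact hω p
        _ = k * ω p := by rw [sum_const, nsmul_eq_mul, card_univ, Fintype.card_fin]
    · rw [if_neg h, mul_zero]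
      refine le_of_eq (sum_eq_zero fun j _ => ?_)
      rw [if_neg]
      exact fun h2 => h ((hAU x p).2 ⟨j, h2⟩)
  have hk0 : (1 : ℝ) ≤ k := by exact_mod_cast hk
  obtain ⟨Ω, hΩd⟩ : ∃ Ω : ℝ, Ω = ∑ q, ω' q := ⟨_, rfl⟩
  have hΩk : Ω = k * ∑ p, ω p := by
    rw [hΩd, Fintype.sum_prod_type, hω', mul_sum]
    refine sum_congr rfl fun p _ => ?_
    show ∑ _j : Fin k, ω p = k * ω p
    rw [sum_const, nsmul_eq_mul, card_univ, Fintype.card_fin]
  have hM : 1 ≤ Ω / τ := by
    rw [le_div_iff₀ hτ, one_mul, hΩk]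
    have : (1 : ℝ) * ∑ p, ω p ≤ k * ∑ p, ω p :=
      mul_le_mul_of_nonneg_right hk0 (by linarith)
    linarith
  have honly : ∀ i x, wonly ω (A x) (A (Y601.SSE.flip i x)) ≤
      wonly ω' (U x) (U (Y601.SSE.flip i x)) := by
    intro i x
    have e : wonly ω' (U x) (U (Y601.SSE.flip i x)) = ∑ p, ∑ j : Fin k,
        if U x (p, j) ∧ ¬ U (Y601.SSE.flip i x) (p, j) then ω p else 0 := by
      unfold wonly
      rw [Fintype.sum_prod_type, hω']
    rw [e]
    unfold wonly
    refine sum_le_sum fun p _ => ?_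
    have h0 : ∀ j : Fin k, (0 : ℝ) ≤
        if U x (p, j) ∧ ¬ U (Y601.SSE.flip i x) (p, j) then ω p else 0 := by
      intro j
      split_ifs
      · exact hω p
      · exact le_rfl
    by_cases h : A x p ∧ ¬ A (Y601.SSE.flip i x) p
    · rw [if_pos h]
      obtain ⟨j, hj⟩ := (hAU x p).1 h.1
      have hj2 : ¬ U (Y601.SSE.flip i x) (p, j) := fun h2 => h.2 ((hAU _ p).2 ⟨j, h2⟩)
      refine le_trans (le_of_eq ?_) (single_le_sum
        (f := fun j => if U x (p, j) ∧ ¬ U (Y601.SSE.flip i x) (p, j) then ω p else 0)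
        (fun j _ => h0 j) (mem_univ j))
      simp [hj, hj2]
    · rw [if_neg h]
      exact sum_nonneg fun j _ => h0 j
  -- the sum of the linear forms
  have hlin : c * Fintype.card I * T ≤
      ∑ q, ω' q * ∑ x, if U x q then ∑ i, sg (Inc U q i) (x i) else 0 := by
    have h1 : ∀ i, c * T ≤ ∑ q, ω' q * ∑ x, if U x q then sg (Inc U q i) (x i) else 0 := by
      intro i
      have h2 := one_variable_w ω A c i (hpair i)
      rw [← hT] at h2
      have h2' : ∑ x, wonly ω (A x) (A (Y601.SSE.flip i x)) ≤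
          ∑ x, wonly ω' (U x) (U (Y601.SSE.flip i x)) :=
        sum_le_sum fun x _ => honly i x
      refine (h2.trans h2').trans (le_of_eq ?_)
      unfold wonly
      rw [sum_comm]
      refine sum_congr rfl fun q _ => ?_
      rw [← boundary hU q i, mul_sum]
      refine sum_congr rfl fun x _ => ?_
      split_ifs <;> simp
    have h3 := sum_le_sum fun i (_ : i ∈ (univ : Finset I)) => h1 i
    rw [sum_const, nsmul_eq_mul, card_univ, sum_comm] at h3
    have h4 : ∑ q, ∑ i, ω' q * ∑ x, (if U x q then sg (Inc U q i) (x i) else 0) =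
        ∑ q, ω' q * ∑ x, if U x q then ∑ i, sg (Inc U q i) (x i) else 0 := by
      refine sum_congr rfl fun q _ => ?_
      rw [← mul_sum, sum_comm]
      congr 1
      refine sum_congr rfl fun x _ => ?_
      by_cases h : U x q
      · simp [h]
      · simp [h]
    rw [h4] at h3
    linarith
  obtain ⟨l, hl⟩ : ∃ l : ℝ, l = c / k := ⟨_, rfl⟩
  have hl0 : 0 ≤ l := by rw [hl]; positivity
  have hlk : l * k = c := by rw [hl]; field_simp
  obtain ⟨μ, hμ⟩ : ∃ μ : ℝ, μ = Real.log (Ω / τ * Real.cosh l ^ Fintype.card I) := ⟨_, rfl⟩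
  have hco : 0 < Real.cosh l := Real.cosh_pos l
  have hco1 : 1 ≤ Real.cosh l := Real.one_le_cosh l
  have hμ0 : 0 ≤ μ := by
    rw [hμ]
    exact Real.log_nonneg (one_le_mul_of_one_le_of_one_le hM (one_le_pow₀ hco1))
  have hΩτ : 0 < Ω / τ := by linarith
  have hΩpos : 0 < Ω := by
    have := mul_pos hΩτ hτ
    rwa [div_mul_cancel₀ _ hτ.ne'] at this
  have hexpμ : Real.exp μ = Ω / τ * Real.cosh l ^ Fintype.card I := by
    rw [hμ, Real.exp_log (by positivity)]
  have hup : ∑ q, ω' q * ∑ x, (if U x q then l * (∑ i, sg (Inc U q i) (x i)) - μ + 1 else 0) ≤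
      2 ^ Fintype.card I * τ := by
    calc ∑ q, ω' q * ∑ x, (if U x q then l * (∑ i, sg (Inc U q i) (x i)) - μ + 1 else 0)
        ≤ ∑ q, ω' q * ∑ x : I → Bool, Real.exp (l * (∑ i, sg (Inc U q i) (x i)) - μ) := by
          refine sum_le_sum fun q _ => mul_le_mul_of_nonneg_left (sum_le_sum fun x _ => ?_)
            (hω'0 q)
          by_cases h : U x q
          · rw [if_pos h]
            exact Real.add_one_le_exp _
          · rw [if_neg h]
            exact (Real.exp_pos _).le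
      _ = ∑ q, ω' q * (Real.exp (-μ) * (2 * Real.cosh l) ^ Fintype.card I) := by
          refine sum_congr rfl fun q _ => ?_
          congr 1
          rw [← moment U q l, mul_sum]
          refine sum_congr rfl fun x _ => ?_
          rw [← Real.exp_add]
          congr 1
          ring
      _ = 2 ^ Fintype.card I * τ := by
          rw [← sum_mul, ← hΩd, Real.exp_neg, hexpμ, mul_pow]
          field_simp
  have hup2 : l * (∑ q, ω' q * ∑ x, if U x q then ∑ i, sg (Inc U q i) (x i) else 0) ≤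
      μ * T' := by
    have h1 : ∑ q, ω' q * ∑ x, (if U x q then l * (∑ i, sg (Inc U q i) (x i)) - μ + 1 else 0) =
        l * (∑ q, ω' q * ∑ x, if U x q then ∑ i, sg (Inc U q i) (x i) else 0) +
          (1 - μ) * T' := by
      have h2 : T' = ∑ q : P × Fin k, ω' q * ∑ x : I → Bool, if U x q then (1 : ℝ) else 0 := by
        rw [hT']
        unfold wt
        rw [sum_comm]
        refine sum_congr rfl fun q _ => ?_
        rw [mul_sum]
        refine sum_congr rfl fun x _ => ?_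
        split_ifs <;> simp
      rw [h2, mul_sum, mul_sum, ← sum_add_distrib]
      refine sum_congr rfl fun q _ => ?_
      have h3 : ∑ x, (if U x q then l * (∑ i, sg (Inc U q i) (x i)) - μ + 1 else 0) =
          l * (∑ x, if U x q then ∑ i, sg (Inc U q i) (x i) else 0) +
            (1 - μ) * ∑ x : I → Bool, if U x q then (1 : ℝ) else 0 := by
        rw [mul_sum, mul_sum, ← sum_add_distrib]
        refine sum_congr rfl fun x _ => ?_
        by_cases h : U x q
        · simp only [h, if_true]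
          ring
        · simp [h]
      rw [h3]
      ring
    rw [h1] at hup
    nlinarith
  have h5 : l * (c * Fintype.card I) * T ≤ μ * k * T := by
    calc l * (c * Fintype.card I) * T = l * (c * Fintype.card I * T) := by ring
      _ ≤ μ * T' := (mul_le_mul_of_nonneg_left hlin hl0).trans hup2
      _ ≤ μ * (k * T) := mul_le_mul_of_nonneg_left hkT hμ0
      _ = μ * k * T := by ring
  have h6 : l * (c * Fintype.card I) ≤ μ * k := le_of_mul_le_mul_right h5 hTpos
  have h6' : l * l * Fintype.card I ≤ μ := by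
    have : l * l * Fintype.card I * k ≤ μ * k := by
      calc l * l * Fintype.card I * k = l * ((l * k) * Fintype.card I) := by ring
        _ = l * (c * Fintype.card I) := by rw [hlk]
        _ ≤ _ := h6
    exact le_of_mul_le_mul_right this (by linarith)
  have h7 : Real.log (Real.cosh l) ≤ l ^ 2 / 2 := by
    rw [Real.log_le_iff_le_exp hco]
    exact Real.cosh_le_exp_half_sq l
  have h8 : μ = Real.log (Ω / τ) + Fintype.card I * Real.log (Real.cosh l) := by
    rw [hμ, Real.log_mul (by positivity) (by positivity), Real.log_pow]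
  have h9 : (Fintype.card I : ℝ) * Real.log (Real.cosh l) ≤ Fintype.card I * (l ^ 2 / 2) :=
    mul_le_mul_of_nonneg_left h7 (Nat.cast_nonneg _)
  have h11 : c ^ 2 * Fintype.card I / (2 * k ^ 2) = l ^ 2 * Fintype.card I / 2 := by
    rw [hl]
    field_simp
  rw [← hΩk, ← Real.le_log_iff_exp_le hΩτ, h11]
  rw [h8] at h6'
  nlinarith

end count

theorem ac0_core_w {N : ℕ} (C : Circuit (Fin N)) {P : Type} [Fintype P]
    (out : P → Fin N ⊕ Fin C.size) (h : ℕ) (hh : ∀ p, C.nodeDepth (out p) ≤ h)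
    {ω : P → ℝ} (hω : ∀ p, 0 ≤ ω p)
    (hT : ∀ ρ : Restr (Fin N), (∃ i, ρ i = none) → 0 < ∑ x, wt ω (Pres C out (ov ρ x)))
    {c : ℝ} (hc : 0 ≤ c)
    (hpair : ∀ i x, c * (wt ω (Pres C out x) + wt ω (Pres C out (Y601.SSE.flip i x))) ≤
      wonly ω (Pres C out x) (Pres C out (Y601.SSE.flip i x)) +
        wonly ω (Pres C out (Y601.SSE.flip i x)) (Pres C out x))
    {s : ℕ} (hs : 1 ≤ s) (hcond : h * C.size * (24 * s) ^ h ≤ 2 ^ s) :
    c * N ≤ (24 * s) ^ (h + 1) := by
  have hs0 : (1 : ℝ) ≤ s := by exact_mod_cast hs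
  rcases Nat.eq_zero_or_pos N with hN | hN
  · subst hN
    simp only [Nat.cast_zero, mul_zero]
    positivity
  obtain ⟨ρ, hρ, hst⟩ := exists_restr C (by simpa using hN) hs h hcond
  rw [Fintype.card_fin] at hst
  obtain ⟨J, hJ⟩ : ∃ J : Finset (Fin N), J = univ.filter fun i => ρ i = none := ⟨_, rfl⟩
  rw [← hJ] at hst
  have hJpos : 0 < J.card := by
    rcases Nat.eq_zero_or_pos J.card with h0 | h0
    · rw [h0] at hst
      have : (0 : ℝ) < N := by exact_mod_cast hN
      simp only [Nat.cast_zero, mul_zero] at hst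
      linarith
    · exact h0
  obtain ⟨i₀, hi₀⟩ := card_pos.1 hJpos
  rw [hJ, mem_filter] at hi₀
  have hcount := sens_w hω (fun x => Pres C out (ov ρ x)) (hT ρ ⟨i₀, hi₀.2⟩) c s J ?_ ?_
  · calc c * N ≤ c * (4 * (24 * s) ^ h * J.card) := mul_le_mul_of_nonneg_left hst hc
      _ = 4 * (24 * s) ^ h * (c * J.card) := by ring
      _ ≤ 4 * (24 * s) ^ h * s := mul_le_mul_of_nonneg_left hcount (by positivity)
      _ ≤ (24 * s) ^ (h + 1) := by
        rw [pow_succ]
        have : (0 : ℝ) ≤ (24 * s) ^ h := by positivity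
        nlinarith
  · intro p x hp
    have h1 := node_dt C hs hρ (out p) (hh p)
    refine le_trans (card_le_card ?_) (sens_le h1 J x)
    intro i hi
    rw [mem_filter] at hi ⊢
    refine ⟨hi.1, ?_⟩
    have h2 : rs (fun x => C.nodeVal x (out p)) ρ x = true := hp
    rw [h2]
    exact hi.2
  · intro i hi x
    rw [hJ, mem_filter] at hi
    have h3 := hpair i (ov ρ x)
    rw [← ov_flip ρ i hi.2] at h3
    exact h3

/-- reductions of small depth from parity to a problem with a gap must be large -/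
theorem ac0_main_w (h : ℕ) : ∃ X0 : ℝ, ∀ {N : ℕ} (C : Circuit (Fin N)) {P : Type} [Fintype P]
    (out : P → Fin N ⊕ Fin C.size) (ω : P → ℝ) (c : ℝ),
    (∀ p, C.nodeDepth (out p) ≤ h) → (∀ p, 0 ≤ ω p) →
    (∀ ρ : Restr (Fin N), (∃ i, ρ i = none) → 0 < ∑ x, wt ω (Pres C out (ov ρ x))) → 0 ≤ c →
    (∀ i x, c * (wt ω (Pres C out x) + wt ω (Pres C out (Y601.SSE.flip i x))) ≤
      wonly ω (Pres C out x) (Pres C out (Y601.SSE.flip i x)) +
        wonly ω (Pres C out (Y601.SSE.flip i x)) (Pres C out x)) →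
    X0 ≤ c * N → (2 : ℝ) ^ ((c * N) ^ (1 / (h + 1 : ℝ)) / 100) ≤ C.size := by
  obtain ⟨Y0, hY48, hY0⟩ := exists_large h
  refine ⟨Y0 ^ (h + 1), ?_⟩
  intro N C P _ out ω c hh hω hT hc hpair hX
  obtain ⟨X, hXd⟩ : ∃ X : ℝ, X = c * N := ⟨_, rfl⟩
  rw [← hXd] at hX ⊢
  obtain ⟨Y, hYd⟩ : ∃ Y : ℝ, Y = X ^ (1 / (h + 1 : ℝ)) := ⟨_, rfl⟩
  rw [← hYd]
  have hY00 : (0 : ℝ) ≤ Y0 := by linarith
  have hXpos : 0 ≤ X := le_trans (by positivity) hX
  have hYX : Y ^ (h + 1) = X := by
    rw [hYd, ← Real.rpow_natCast, ← Real.rpow_mul hXpos]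
    push_cast
    rw [one_div, inv_mul_cancel₀ (by positivity), Real.rpow_one]
  have hYn : 0 ≤ Y := by rw [hYd]; exact Real.rpow_nonneg hXpos _
  have hYY : Y0 ≤ Y := by
    by_contra hcon
    push Not at hcon
    have := pow_lt_pow_left₀ hcon hYn (Nat.succ_ne_zero h)
    rw [Nat.succ_eq_add_one, hYX] at this
    linarith
  have hY := hY0 Y hYY
  by_contra hcon
  push Not at hcon
  obtain ⟨s, hs⟩ : ∃ s : ℕ, s = ⌈Y / 24⌉₊ - 1 := ⟨_, rfl⟩
  have hc1 : Y / 24 ≤ ⌈Y / 24⌉₊ := Nat.le_ceil _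
  have hc2 : (⌈Y / 24⌉₊ : ℝ) < Y / 24 + 1 := Nat.ceil_lt_add_one (by positivity)
  have hc3 : 2 ≤ ⌈Y / 24⌉₊ := by
    have : (2 : ℝ) ≤ ⌈Y / 24⌉₊ := le_trans (by linarith) hc1
    exact_mod_cast this
  have hs1 : 1 ≤ s := by omega
  have hsr : (s : ℝ) = ⌈Y / 24⌉₊ - 1 := by
    rw [hs, Nat.cast_sub (by omega), Nat.cast_one]
  have hs2 : 24 * (s : ℝ) < Y := by rw [hsr]; linarith
  have hs3 : Y / 24 - 1 ≤ s := by rw [hsr]; linarith
  have hlt : (24 * (s : ℝ)) ^ (h + 1) < X := by
    rw [← hYX]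
    exact pow_lt_pow_left₀ hs2 (by positivity) (Nat.succ_ne_zero h)
  have hcond : h * C.size * (24 * s) ^ h ≤ 2 ^ s := by
    have h1 : ((h * C.size * (24 * s) ^ h : ℕ) : ℝ) ≤ ((2 ^ s : ℕ) : ℝ) := by
      push_cast
      calc (h : ℝ) * C.size * (24 * s) ^ h ≤ h * 2 ^ (Y / 100) * Y ^ h := by
            apply mul_le_mul _ (pow_le_pow_left₀ (by positivity) hs2.le h) (by positivity)
              (by positivity)
            exact mul_le_mul_of_nonneg_left hcon.le (Nat.cast_nonneg _)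
        _ = h * Y ^ h * 2 ^ (Y / 100) := by ring
        _ ≤ 2 ^ (Y / 24 - 1) := hY
        _ ≤ (2 : ℝ) ^ (s : ℝ) := Real.rpow_le_rpow_of_exponent_le (by norm_num) hs3
        _ = 2 ^ s := Real.rpow_natCast _ _
    exact_mod_cast h1
  have hcore := ac0_core_w C out h hh hω hT hc hpair hs1 hcond
  rw [← hXd] at hcore
  linarith

end Pool.Agent.V11201.GP
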